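import Pool.Agent.Q218.HB.Stm

/-! Project HB (helper218), job OPB: the norm of the resolvent. -/

set_option autoImplicit false

open MeasureTheory

namespace Pool.Agent.Q190.HB

open Pool.Agent.Q218.HB

theorem opb (inv : S_INV) : S_OPB := by
  intro Λ _ _ h V z hs hz f
  obtain ⟨h1, h2, h3⟩ := inv Λ h V z hs hz.ne'
  set u : Λ → ℂ := fun x => ∑ y, G h V z x y * f y with hu
  have hu' : u = (G h V z).mulVec f := rfl
  have hf : (Hm h V - z • (1 : Matrix Λ Λ ℂ)).mulVec u = f := by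
    rw [hu', Matrix.mulVec_mulVec, h1, Matrix.one_mulVec]
  have hfx : ∀ x, f x = (∑ y, Hm h V x y * u y) - z * u x := by
    intro x
    have h4 := congrFun hf x
    rw [Matrix.sub_mulVec, Matrix.smul_mulVec, Matrix.one_mulVec] at h4
    rw [← h4]
    rfl
  set Q : ℂ := ∑ x, ∑ y, (starRingEnd ℂ) (u x) * (Hm h V x y * u y) with hQ
  have hHc : ∀ x y, (starRingEnd ℂ) (Hm h V x y) = Hm h V y x := by
    intro x y
    unfold Hm
    rw [map_add, Complex.conj_ofReal, hs x y]
    congr 1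
    by_cases hxy : x = y
    · subst hxy
      simp
    · rw [if_neg hxy, if_neg (Ne.symm hxy), map_zero]
  have hQr : Q.im = 0 := by
    rw [← Complex.conj_eq_iff_im, hQ, map_sum]
    simp only [map_sum, map_mul, Complex.conj_conj, hHc]
    rw [Finset.sum_comm]
    refine Finset.sum_congr rfl fun x _ => Finset.sum_congr rfl fun y _ => ?_
    ring
  set A : ℝ := ∑ x, ‖u x‖ ^ 2 with hA
  set B : ℝ := ∑ x, ‖f x‖ ^ 2 with hB
  have hA0 : 0 ≤ A := Finset.sum_nonneg fun x _ => by positivity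
  have hB0 : 0 ≤ B := Finset.sum_nonneg fun x _ => by positivity
  have hI : ∑ x, (starRingEnd ℂ) (u x) * f x = Q - z * (A : ℂ) := by
    have h5 : ∀ x, (starRingEnd ℂ) (u x) * f x =
        (∑ y, (starRingEnd ℂ) (u x) * (Hm h V x y * u y)) - z * ((‖u x‖ ^ 2 : ℝ) : ℂ) := by
      intro x
      have h6 : ((‖u x‖ ^ 2 : ℝ) : ℂ) = (starRingEnd ℂ) (u x) * u x := by
        rw [Complex.ofReal_pow]
        exact (Complex.conj_mul' (u x)).symm
      rw [hfx x, h6, ← Finset.mul_sum]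
      ring
    rw [Finset.sum_congr rfl fun x _ => h5 x, Finset.sum_sub_distrib, ← Finset.mul_sum, ← Complex.ofReal_sum]
  have him : (∑ x, (starRingEnd ℂ) (u x) * f x).im = -(z.im * A) := by
    rw [hI, Complex.sub_im, hQr, Complex.im_mul_ofReal]
    ring
  have hn : z.im * A ≤ ∑ x, ‖u x‖ * ‖f x‖ := by
    have h7 : |(∑ x, (starRingEnd ℂ) (u x) * f x).im| ≤ ‖∑ x, (starRingEnd ℂ) (u x) * f x‖ :=
      Complex.abs_im_le_norm _
    rw [him, abs_neg, abs_of_nonneg (mul_nonneg hz.le hA0)] at h7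
    refine h7.trans ((norm_sum_le _ _).trans (le_of_eq ?_))
    refine Finset.sum_congr rfl fun x _ => ?_
    rw [norm_mul, Complex.norm_conj]
  have hcs : (∑ x, ‖u x‖ * ‖f x‖) ^ 2 ≤ A * B := Finset.sum_mul_sq_le_sq_mul_sq _ _ _
  have h8 : (z.im * A) ^ 2 ≤ A * B := by
    refine le_trans ?_ hcs
    exact pow_le_pow_left₀ (mul_nonneg hz.le hA0) hn 2
  rw [le_div_iff₀ (by positivity)]
  rcases eq_or_lt_of_le hA0 with h9 | h9
  · rw [← h9, zero_mul]
    exact hB0
  · have h10 : A * (A * z.im ^ 2) ≤ A * B := by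
      calc A * (A * z.im ^ 2) = (z.im * A) ^ 2 := by ring
        _ ≤ A * B := h8
    exact le_of_mul_le_mul_left h10 h9

end Pool.Agent.Q190.HB
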